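import Mathlib
import Pool.Agent.Q183.Lev.Tree

set_option autoImplicit false

/-!
# Graph matchbox manifolds at every finite level

For every `k` the bi-infinite path in the Cayley graph of `F_n` whose `j`-th edge is labelled by the generator `b` if `j`
is a sum of `k - 1` distinct powers of `3` and by the generator `a` otherwise (for `k = 0` all edges are labelled `a`)
determines a leaf whose closure is at level exactly `k`.
-/

namespace Pool.Agent.Results.MP_598c06_an.EveryFiniteLevel

open Pool.Agent.Q183.Lev

/-- For every `n`, any two distinct free generators `a, b` of `F_n` and every `k`, the closure of the leaf of the path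
tree of `spread k` is at level exactly `k`. -/
theorem result (n : ℕ) (a b : Fin n) (hab : a ≠ b) (k : ℕ) :
    IsLevel k (closureX (leaf (pathTree a b (spread k)))) :=
  level_spread hab k

end Pool.Agent.Results.MP_598c06_an.EveryFiniteLevel
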